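import Pool.Agent.H391Z.UcC

set_option autoImplicit false

namespace Pool.Agent.Results.MP_24ae9b_co.AWojcikMinDensity

open Pool.Agent.H391Z.UC

/-- Wójcik's conjecture: for every `n ≥ 1` the least density of a nonempty union-closed family
whose union has `n` elements is the smaller of the densities of `W_{n,⌊log₂ n⌋}` and
`W_{n,⌈log₂ n⌉}`. -/
theorem result (n : ℕ) (hn : 1 ≤ n) :
    IsLeast {d : ℝ | ∃ (α : Type) (_ : DecidableEq α) (F : Finset (Finset α)),
        F.Nonempty ∧ UnionClosed F ∧ (ground F).card = n ∧ d = density F}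
      (min (density (wfam n (Nat.log 2 n))) (density (wfam n (Nat.clog 2 n)))) := by
  constructor
  · have h1 : Nat.log 2 n < n := Nat.log_lt_self 2 (by omega)
    have h2 := clog_lt hn
    rcases min_choice (density (wfam n (Nat.log 2 n))) (density (wfam n (Nat.clog 2 n))) with
      h | h
    · exact ⟨ℕ, inferInstance, _, Finset.insert_nonempty _ _, wfam_uc h1, wfam_ground h1, h⟩
    · exact ⟨ℕ, inferInstance, _, Finset.insert_nonempty _ _, wfam_uc h2, wfam_ground h2, h⟩
  · rintro d ⟨α, _, F, hne, hU, hF, rfl⟩
    exact lower hne hU hF hn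

end Pool.Agent.Results.MP_24ae9b_co.AWojcikMinDensity
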